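import Mathlib
import Pool.Agent.helper2.Morse5
import Pool.Agent.helper98.NIG.D05
import Pool.Agent.helper98.NIG.Main

/-!
# Subgroups of intermediate growth in the topological full groups of the Morse, Chacon and
Rudin-Shapiro subshifts

`result`: the topological full group of the Morse subshift contains a finitely generated subgroup
of intermediate growth; every finitely generated subgroup of the topological full group of the
Chacon subshift, and of the Rudin-Shapiro subshift, has polynomial or exponential growth.

The Morse part is `Pool/Agent/helper2/Morse5.lean`. For the other two subshifts the shift is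
coded by piecewise shifts over a skeleton with gates of two types (`Pool/Agent/helper98/NIG`,
files D); a finitely generated group of piecewise shifts decomposes into minimal systems (files
C), each of which has polynomial growth or a reduced quotient (`Pool/Agent/helper97/NIG`), and a
reduced system has exponential growth: locks (`Pool/Agent/helper2/NIG`, files L), strips (files
E), transitivity and tokens (`Pool/Agent/helper35/NIG`, files Q, V, R).
-/

namespace Pool.Agent.Results.MP_0e9457_al.FullAnswer

open Filter Topology

/-! ### Definitions -/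

/-- The Morse (Thue-Morse) substitution: `0 ↦ 01`, `1 ↦ 10` (`false` is `0`). -/
def morseSubst : Bool → List Bool
  | false => [false, true]
  | true => [true, false]

/-- The Chacon substitution: `0 ↦ 0010`, `1 ↦ 1` (`false` is `0`). -/
def chaconSubst : Bool → List Bool
  | false => [false, false, true, false]
  | true => [true]

/-- The Rudin-Shapiro substitution: `a ↦ ab`, `b ↦ ac`, `c ↦ db`, `d ↦ dc`
(`0, 1, 2, 3` are `a, b, c, d`). -/
def rudinShapiroSubst : Fin 4 → List (Fin 4)
  | 0 => [0, 1]
  | 1 => [0, 2]
  | 2 => [3, 1]
  | 3 => [3, 2]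

/-- The extension of a substitution to words by concatenation. -/
def onWords {α : Type} (σ : α → List α) (w : List α) : List α := w.flatMap σ

/-- The set of the bi-infinite sequences all of whose finite subwords satisfy `P`. -/
def allWindows {α : Type} (P : List α → Prop) : Set (ℤ → α) :=
  {x | ∀ (i : ℤ) (n : ℕ), P (List.ofFn fun m : Fin n => x (i + m))}

/-- The Morse subshift: all finite subwords occur in some `σ^k(c)`, `c` a letter, `k ≥ 1`. -/
def MorseShift : Set (ℤ → Bool) :=
  allWindows fun w => ∃ (c : Bool) (k : ℕ), 1 ≤ k ∧ w <:+: (onWords morseSubst)^[k] [c]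

/-- The Chacon subshift: all finite subwords occur in some `σ^k(0)`, that is in the fixed point
`σ^∞(0)`. -/
def ChaconShift : Set (ℤ → Bool) :=
  allWindows fun w => ∃ k : ℕ, w <:+: (onWords chaconSubst)^[k] [false]

/-- The Rudin-Shapiro subshift: all finite subwords occur in some `σ^k(c)`, `c` a letter,
`k ≥ 1`. -/
def RudinShapiroShift : Set (ℤ → Fin 4) :=
  allWindows fun w => ∃ (c : Fin 4) (k : ℕ), 1 ≤ k ∧ w <:+: (onWords rudinShapiroSubst)^[k] [c]

theorem mem_shift {α : Type} {P : List α → Prop} {x : ℤ → α} (hx : x ∈ allWindows P) (j : ℤ) :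
    (fun i => x (i + j)) ∈ allWindows P := by
  intro i n
  have h := hx (i + j) n
  have e : (fun m : Fin n => x (i + m + j)) = fun m : Fin n => x (i + j + m) := by
    funext m
    congr 1
    ring
  change P (List.ofFn fun m : Fin n => x (i + m + j))
  rw [e]
  exact h

/-- The left shift `(T x)_i = x_(i+1)` as a homeomorphism of `allWindows P`. -/
def leftShift {α : Type} [TopologicalSpace α] (P : List α → Prop) :
    allWindows P ≃ₜ allWindows P where
  toFun x := ⟨fun i => x.1 (i + 1), mem_shift x.2 1⟩
  invFun x := ⟨fun i => x.1 (i + -1), mem_shift x.2 (-1)⟩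
  left_inv x := by
    apply Subtype.ext
    funext i
    change x.1 (i + -1 + 1) = x.1 i
    rw [neg_add_cancel_right]
  right_inv x := by
    apply Subtype.ext
    funext i
    change x.1 (i + 1 + -1) = x.1 i
    rw [add_neg_cancel_right]
  continuous_toFun := by
    apply Continuous.subtype_mk
    exact continuous_pi fun i => (continuous_apply (i + 1)).comp continuous_subtype_val
  continuous_invFun := by
    apply Continuous.subtype_mk
    exact continuous_pi fun i => (continuous_apply (i + -1)).comp continuous_subtype_val

/-- The left shift of the Morse subshift. -/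
def morseLeftShift : MorseShift ≃ₜ MorseShift := leftShift _

/-- The left shift of the Chacon subshift. -/
def chaconLeftShift : ChaconShift ≃ₜ ChaconShift := leftShift _

/-- The left shift of the Rudin-Shapiro subshift. -/
def rudinShapiroLeftShift : RudinShapiroShift ≃ₜ RudinShapiroShift := leftShift _

/-- The topological full group `[[T]]` of a homeomorphism `T` of a space `Y`, as a subgroup of the
group of homeomorphisms of `Y`. -/
def topologicalFullGroup {Y : Type} [TopologicalSpace Y] (T : Y ≃ₜ Y) : Subgroup (Y ≃ₜ Y) where
  carrier := {g | ∃ n : Y → ℤ, Continuous n ∧ ∀ y, g y = (T ^ n y) y}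
  one_mem' := ⟨fun _ => 0, continuous_const, fun y => by simp⟩
  mul_mem' := by
    rintro g h ⟨n, hn, hg⟩ ⟨m, hm, hh⟩
    refine ⟨fun y => n (h y) + m y, (hn.comp h.continuous).add hm, fun y => ?_⟩
    rw [Homeomorph.mul_apply, hg, zpow_add, Homeomorph.mul_apply, ← hh]
  inv_mem' := by
    rintro g ⟨n, hn, hg⟩
    refine ⟨fun y => - n (g⁻¹ y), (hn.comp g⁻¹.continuous).neg, fun y => ?_⟩
    obtain ⟨z, rfl⟩ : ∃ z, y = g z := ⟨g⁻¹ y, by
      rw [← Homeomorph.mul_apply, mul_inv_cancel, Homeomorph.one_apply]⟩
    have h2 : g⁻¹ (g z) = z := by
      rw [← Homeomorph.mul_apply, inv_mul_cancel, Homeomorph.one_apply]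
    show g⁻¹ (g z) = (T ^ (-n (g⁻¹ (g z)))) (g z)
    rw [h2, hg z, zpow_neg, ← Homeomorph.mul_apply, inv_mul_cancel, Homeomorph.one_apply]

/-- `growth S r`: the number of elements of `G` that are products of at most `r` elements of
`S ∪ S⁻¹`. -/
noncomputable def growth {G : Type} [Group G] (S : Set G) (r : ℕ) : ℕ :=
  {g : G | ∃ l : List G, l.length ≤ r ∧ (∀ s ∈ l, s ∈ S ∨ s⁻¹ ∈ S) ∧ l.prod = g}.ncard

/-- `G` is finitely generated and has intermediate growth (with respect to every finite generating
set): the growth function grows faster than every polynomial and slower than every exponential. -/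
def IntermediateGrowth (G : Type) [Group G] : Prop :=
  Group.FG G ∧ ∀ S : Set G, S.Finite → Subgroup.closure S = ⊤ →
    (∀ d : ℕ, Tendsto (fun r : ℕ => (growth S r : ℝ) / (r : ℝ) ^ d) atTop atTop) ∧
    (∀ c : ℝ, 0 < c → Tendsto (fun r : ℕ => (growth S r : ℝ) / Real.exp (c * r)) atTop (𝓝 0))

/-- `G` is finitely generated and has polynomial growth: for every finite generating set the
growth function is bounded by a polynomial. -/
def PolynomialGrowth (G : Type) [Group G] : Prop :=
  Group.FG G ∧ ∀ S : Set G, S.Finite → Subgroup.closure S = ⊤ →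
    ∃ d C : ℕ, ∀ r : ℕ, 1 ≤ r → growth S r ≤ C * r ^ d

/-- `G` is finitely generated and has exponential growth: for every finite generating set the
growth function is at least `e^(cr)` for some `c > 0` and all large `r`. -/
def ExponentialGrowth (G : Type) [Group G] : Prop :=
  Group.FG G ∧ ∀ S : Set G, S.Finite → Subgroup.closure S = ⊤ →
    ∃ c : ℝ, 0 < c ∧ ∀ᶠ r : ℕ in atTop, Real.exp (c * r) ≤ (growth S r : ℝ)

/-- The topological full group of `T` contains a finitely generated subgroup of intermediate
growth. -/
def HasIntermediateSubgroup {Y : Type} [TopologicalSpace Y] (T : Y ≃ₜ Y) : Prop :=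
  ∃ H : Subgroup (Y ≃ₜ Y), H ≤ topologicalFullGroup T ∧ IntermediateGrowth H

/-- Every finitely generated subgroup of the topological full group of `T` has polynomial or
exponential growth, and does not have intermediate growth. -/
def AllSubgroupsPolyOrExp {Y : Type} [TopologicalSpace Y] (T : Y ≃ₜ Y) : Prop :=
  ∀ H : Subgroup (Y ≃ₜ Y), H ≤ topologicalFullGroup T → Group.FG H →
    (PolynomialGrowth H ∨ ExponentialGrowth H) ∧ ¬ IntermediateGrowth H

open Pool.Agent.helper98.NIG in
theorem fg_of_dich {G : Type} [Group G] (h : ExpGrowth G ∨ PolyGrowth G) (hfg : Group.FG G) :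
    (PolynomialGrowth G ∨ ExponentialGrowth G) ∧ ¬ IntermediateGrowth G := by
  constructor
  · rcases h with h | h
    · exact Or.inr ⟨hfg, fun S hS hgen => growth_of_exp h S hS hgen⟩
    · exact Or.inl ⟨hfg, fun S hS _ => growth_of_poly h S hS⟩
  · rintro ⟨-, h2⟩
    obtain ⟨S, hS, hgen, hn⟩ := not_intermediate h hfg
    exact hn (h2 S hS hgen)

theorem morse_part : ∃ H : Subgroup (MorseShift ≃ₜ MorseShift),
    H ≤ topologicalFullGroup morseLeftShift ∧ IntermediateGrowth H :=
  Pool.Agent.helper2.Morse5.result

open Pool.Agent.helper98.NIG in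
theorem chacon_part (H : Subgroup (ChaconShift ≃ₜ ChaconShift))
    (hH : H ≤ topologicalFullGroup chaconLeftShift) (hfg : Group.FG H) :
    (PolynomialGrowth H ∨ ExponentialGrowth H) ∧ ¬ IntermediateGrowth H := by
  have hcomp : CompactSpace Pool.Agent.helper98.NIG.ChaconShift := chacon_compact
  obtain ⟨c⟩ := chacon_coding chaconLeftShift (fun x i => rfl)
  exact fg_of_dich (dich_full (fun A hA => Sys.exp_of_red A hA) c H hH
    ((Group.fg_iff_subgroup_fg H).1 hfg)) hfg

open Pool.Agent.helper98.NIG in
theorem rudin_shapiro_part (H : Subgroup (RudinShapiroShift ≃ₜ RudinShapiroShift))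
    (hH : H ≤ topologicalFullGroup rudinShapiroLeftShift) (hfg : Group.FG H) :
    (PolynomialGrowth H ∨ ExponentialGrowth H) ∧ ¬ IntermediateGrowth H := by
  have hcomp : CompactSpace Pool.Agent.helper98.NIG.RSShift := rs_compact
  obtain ⟨c⟩ := rs_coding rudinShapiroLeftShift (fun x i => rfl)
  exact fg_of_dich (dich_full (fun A hA => Sys.exp_of_red A hA) c H hH
    ((Group.fg_iff_subgroup_fg H).1 hfg)) hfg

/-- The topological full group of the Morse subshift has a finitely generated subgroup of
intermediate growth; every finitely generated subgroup of the topological full group of the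
Chacon subshift and of the Rudin-Shapiro subshift has polynomial or exponential growth (so it
does not have intermediate growth). -/
theorem result : HasIntermediateSubgroup morseLeftShift ∧
    AllSubgroupsPolyOrExp chaconLeftShift ∧ AllSubgroupsPolyOrExp rudinShapiroLeftShift :=
  ⟨morse_part, chacon_part, rudin_shapiro_part⟩

end Pool.Agent.Results.MP_0e9457_al.FullAnswer
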